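import Pool.Agent.helper84.QD.Defs

/-! Module S3 of MP_747ad5_an (helper84): components of superlevel sets of a function which is
superharmonic in the disk and small on the circle have primitives. -/

open Metric Set Topology Filter MeasureTheory
open scoped ENNReal ComplexConjugate

namespace Pool.Agent.helper44.QD

/-- the superlevel set -/
def sup1 (T : ℂ → ℝ) (m : ℝ) : Set ℂ := {z ∈ ball (0 : ℂ) 1 | m < T z}

/-- `1/(z-ζ)` has a primitive on `V`. -/
def Ex (V : Set ℂ) (ζ : ℂ) : Prop := ∃ g : ℂ → ℂ, ∀ z ∈ V, HasDerivAt g (1 / (z - ζ)) z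

theorem ratio_slit {z ζ ζ' : ℂ} (h : ‖ζ' - ζ‖ < ‖z - ζ‖) :
    (z - ζ') / (z - ζ) ∈ Complex.slitPlane := by
  have h0 : z - ζ ≠ 0 := by
    intro h0; rw [h0, norm_zero] at h
    exact absurd h (not_lt.mpr (norm_nonneg _))
  have e : (z - ζ') / (z - ζ) = 1 + (-(ζ' - ζ) / (z - ζ)) := by
    field_simp; ring
  rw [e]
  apply Complex.mem_slitPlane_of_norm_lt_one
  rw [norm_div, norm_neg, div_lt_one (norm_pos_iff.mpr h0)]
  exact h

theorem ratio_log {z ζ ζ' : ℂ} (h : ‖ζ' - ζ‖ < ‖z - ζ‖) :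
    HasDerivAt (fun w => Complex.log ((w - ζ') / (w - ζ))) (1 / (z - ζ') - 1 / (z - ζ)) z := by
  have h0 : z - ζ ≠ 0 := by
    intro h0; rw [h0, norm_zero] at h
    exact absurd h (not_lt.mpr (norm_nonneg _))
  have h1 : z - ζ' ≠ 0 := by
    intro h1
    have e := ratio_slit h
    rw [h1, zero_div] at e
    exact Complex.slitPlane_ne_zero e rfl
  have d1 : HasDerivAt (fun w : ℂ => (w - ζ') / (w - ζ))
      ((1 * (z - ζ) - (z - ζ') * 1) / (z - ζ) ^ 2) z :=
    ((hasDerivAt_id z).sub_const ζ').div ((hasDerivAt_id z).sub_const ζ) h0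
  have d2 := d1.clog (ratio_slit h)
  convert d2 using 1
  field_simp

theorem ex_iff {V : Set ℂ} {ζ ζ' : ℂ} (h : ∀ z ∈ V, ‖ζ' - ζ‖ < ‖z - ζ‖) :
    Ex V ζ ↔ Ex V ζ' := by
  constructor
  · rintro ⟨g, hg⟩
    refine ⟨fun w => g w + Complex.log ((w - ζ') / (w - ζ)), fun z hz => ?_⟩
    have := (hg z hz).add (ratio_log (h z hz))
    rw [add_sub_cancel] at this
    exact this
  · rintro ⟨g, hg⟩
    refine ⟨fun w => g w - Complex.log ((w - ζ') / (w - ζ)), fun z hz => ?_⟩
    have := (hg z hz).sub (ratio_log (h z hz))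
    rw [sub_sub_cancel] at this
    exact this

theorem ex_far {V : Set ℂ} (hV : V ⊆ ball 0 1) {ζ : ℂ} (hζ : 1 ≤ ‖ζ‖) : Ex V ζ := by
  refine ⟨fun w => Complex.log (1 + -(w / ζ)), fun z hz => ?_⟩
  have hz1 : ‖z‖ < 1 := by simpa using hV hz
  have h0 : ζ ≠ 0 := by
    intro h0; rw [h0, norm_zero] at hζ; linarith
  have h1 : z - ζ ≠ 0 := by
    intro h1
    have : z = ζ := by linear_combination h1
    rw [this] at hz1; linarith
  have hs : 1 + -(z / ζ) ∈ Complex.slitPlane := by
    apply Complex.mem_slitPlane_of_norm_lt_one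
    rw [norm_neg, norm_div, div_lt_one (norm_pos_iff.mpr h0)]
    linarith
  have d1 : HasDerivAt (fun w : ℂ => 1 + -(w / ζ)) (-(1 / ζ)) z :=
    (((hasDerivAt_id z).div_const ζ).neg).const_add 1
  have d2 := d1.clog hs
  convert d2 using 1
  have : 1 + -(z / ζ) = (ζ - z) / ζ := by field_simp; ring
  rw [this]
  have h2 : ζ - z ≠ 0 := by
    intro h2; apply h1; linear_combination -h2
  field_simp
  ring

/-- the primitive of `1/(z-ζ)` exists or not, locally constant in `ζ` off `closure V`. -/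
theorem ex_nhds {V : Set ℂ} {ζ : ℂ} (hζ : ζ ∉ closure V) :
    ∀ᶠ ζ' in 𝓝 ζ, ζ' ∉ closure V ∧ (Ex V ζ ↔ Ex V ζ') := by
  have h1 : ∀ᶠ ζ' in 𝓝 ζ, ζ' ∉ closure V :=
    isClosed_closure.isOpen_compl.mem_nhds hζ
  obtain ⟨ε, hε, hb⟩ := Metric.mem_nhds_iff.mp (isClosed_closure.isOpen_compl.mem_nhds hζ)
  filter_upwards [h1, Metric.ball_mem_nhds ζ hε] with ζ' h2 h3
  refine ⟨h2, ex_iff fun z hz => ?_⟩
  have h4 : z ∉ ball ζ ε := fun h => hb h (subset_closure hz)
  rw [mem_ball, dist_eq_norm] at h3 h4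
  exact lt_of_lt_of_le h3 (not_lt.mp h4)

theorem sup1_open {T : ℂ → ℝ} (hTc : ContinuousOn T (closedBall 0 1)) (m : ℝ) :
    IsOpen (sup1 T m) :=
  (hTc.mono ball_subset_closedBall).isOpen_inter_preimage isOpen_ball isOpen_Ioi

/-- minimum principle. -/
theorem min_principle {T : ℂ → ℝ} {s : ℝ} (hTc : ContinuousOn T (closedBall 0 1))
    (hsm : ∀ c ∈ ball (0 : ℂ) 1, ∀ᶠ r in 𝓝[>] (0 : ℝ), Real.circleAverage T c r ≤ T c)
    {B : Set ℂ} (hB : IsOpen B) (hBb : closure B ⊆ ball 0 1)
    (hfr : ∀ z ∈ frontier B, s ≤ T z) : ∀ z ∈ closure B, s ≤ T z := by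
  by_contra hcon
  push Not at hcon
  obtain ⟨z0, hz0, hz0s⟩ := hcon
  have hBcl : IsCompact (closure B) :=
    (isCompact_closedBall (0 : ℂ) 1).of_isClosed_subset isClosed_closure
      (hBb.trans ball_subset_closedBall)
  have hTB : ContinuousOn T (closure B) := hTc.mono (hBb.trans ball_subset_closedBall)
  obtain ⟨p, hp, hpmin⟩ := hBcl.exists_isMinOn ⟨z0, hz0⟩ hTB
  have hps : T p < s := lt_of_le_of_lt (hpmin hz0) hz0s
  -- minimizers
  set M : Set ℂ := {z ∈ closure B | T z = T p} with hM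
  have hMc : IsCompact M := by
    have : IsClosed (closure B ∩ T ⁻¹' {T p}) :=
      hTB.preimage_isClosed_of_isClosed isClosed_closure isClosed_singleton
    exact hBcl.of_isClosed_subset this (fun z hz => hz.1)
  obtain ⟨c, hc, hcmax⟩ := hMc.exists_isMaxOn ⟨p, hp, rfl⟩ Complex.continuous_re.continuousOn
  have hcB : c ∈ B := by
    by_contra hcB
    have : c ∈ frontier B := ⟨hc.1, fun h => hcB (interior_subset h)⟩
    have h1 := hfr c this
    rw [hc.2] at h1
    exact absurd h1 (not_le.mpr hps)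
  obtain ⟨ε, hε, hb⟩ := Metric.isOpen_iff.mp hB c hcB
  have hev := hsm c (hBb hc.1)
  have hev2 : ∀ᶠ r in 𝓝[>] (0 : ℝ), r < ε := by
    filter_upwards [Ioo_mem_nhdsGT hε] with r hr using hr.2
  obtain ⟨r, ⟨hr1, hr2⟩, hr0⟩ := ((hev.and hev2).and self_mem_nhdsWithin).exists
  have hr0' : 0 < r := hr0
  have hcirc : ∀ θ : ℝ, circleMap c r θ ∈ closure B := by
    intro θ
    apply subset_closure
    apply hb
    rw [mem_ball, dist_eq_norm, circleMap_sub_center, norm_circleMap_zero, abs_of_pos hr0']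
    exact hr2
  have hcont : Continuous fun θ : ℝ => T (circleMap c r θ) :=
    hTB.comp_continuous (continuous_circleMap c r) hcirc
  have hle : ∀ θ : ℝ, T p ≤ T (circleMap c r θ) := fun θ => hpmin (hcirc θ)
  have hlt : T p < T (circleMap c r 0) := by
    refine lt_of_le_of_ne (hle 0) fun h => ?_
    have h1 : circleMap c r 0 ∈ M := ⟨hcirc 0, h.symm⟩
    have h2 := hcmax h1
    simp only [Set.mem_ofPred_eq] at h2
    have h3 : (circleMap c r 0).re = c.re + r := by simp [circleMap]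
    rw [h3] at h2
    linarith
  have hint : ∫ θ in (0 : ℝ)..2 * Real.pi, T p <
      ∫ θ in (0 : ℝ)..2 * Real.pi, T (circleMap c r θ) :=
    intervalIntegral.integral_lt_integral_of_continuousOn_of_le_of_exists_lt Real.two_pi_pos
      continuousOn_const hcont.continuousOn (fun θ _ => hle θ)
      ⟨0, ⟨le_refl _, Real.two_pi_pos.le⟩, hlt⟩
  rw [Real.circleAverage_def, hc.2, smul_eq_mul] at hr1
  rw [intervalIntegral.integral_const, smul_eq_mul, sub_zero] at hint
  have h5 : T p < (2 * Real.pi)⁻¹ * ∫ θ in (0 : ℝ)..2 * Real.pi, T (circleMap c r θ) := by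
    rw [inv_mul_eq_div, lt_div_iff₀ Real.two_pi_pos]
    linarith
  linarith

/-- every component of a bounded open set has a boundary point in its closure. -/
theorem exists_frontier {B : Set ℂ} (hB : IsOpen B) (hBb : closure B ⊆ ball 0 1) {b : ℂ}
    (hb : b ∈ B) : ∃ p ∈ frontier B, p ∈ closure (connectedComponentIn B b) := by
  set C := connectedComponentIn B b with hC
  have hCo : IsOpen C := hB.connectedComponentIn
  have hCB : C ⊆ B := connectedComponentIn_subset B b
  have hbC : b ∈ C := mem_connectedComponentIn hb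
  have hne : C ≠ univ := by
    intro h
    have : (2 : ℂ) ∈ C := by rw [h]; trivial
    have h2 := hBb (subset_closure (hCB this))
    simp at h2
  have hnc : ¬ IsClosed C := by
    intro h
    have : IsClopen C := ⟨h, hCo⟩
    rcases isClopen_iff.mp this with h1 | h1
    · rw [h1] at hbC; exact hbC
    · exact hne h1
  have hex : ∃ p ∈ closure C, p ∉ C := by
    by_contra hcon
    push Not at hcon
    exact hnc (isClosed_of_closure_subset hcon)
  obtain ⟨p, hp, hpC⟩ := hex
  have hpB : p ∉ B := by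
    intro hpB
    apply hpC
    have hconn : IsPreconnected (insert p C) :=
      isPreconnected_connectedComponentIn.subset_closure (subset_insert p C)
        (insert_subset hp subset_closure)
    exact hconn.subset_connectedComponentIn (mem_insert_of_mem p hbC)
      (insert_subset hpB hCB) (mem_insert p C)
  exact ⟨p, ⟨closure_mono hCB hp, fun h => hpB (interior_subset h)⟩, hp⟩

theorem superlevel_kernels {T : ℂ → ℝ} {m s : ℝ} (hTc : ContinuousOn T (closedBall 0 1))
    (hT0 : ∀ z ∈ sphere (0 : ℂ) 1, T z < m) (hms : m < s)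
    (hsm : ∀ c ∈ ball (0 : ℂ) 1, ∀ᶠ r in 𝓝[>] (0 : ℝ), Real.circleAverage T c r ≤ T c)
    {x : ℂ} (hx : x ∈ sup1 T s) :
    ∃ Kh : Set ℂ, IsCompact Kh ∧ closure (connectedComponentIn (sup1 T s) x) ⊆ Kh ∧
      Kh ⊆ connectedComponentIn (sup1 T m) x ∧
      ∀ ζ : ℂ, ζ ∉ Kh → ∃ g : ℂ → ℂ,
        ∀ z ∈ connectedComponentIn (sup1 T s) x, HasDerivAt g (1 / (z - ζ)) z := by
  set V := connectedComponentIn (sup1 T s) x with hV
  have hVs : V ⊆ sup1 T s := connectedComponentIn_subset _ _
  have hxV : x ∈ V := mem_connectedComponentIn hx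
  have hVb : V ⊆ ball 0 1 := fun z hz => (hVs hz).1
  have hVcc : closure V ⊆ closedBall 0 1 :=
    closure_minimal (hVb.trans ball_subset_closedBall) isClosed_closedBall
  have hVT : ∀ z ∈ closure V, s ≤ T z := by
    intro z hz
    have : closure V ⊆ closedBall 0 1 ∩ T ⁻¹' Ici s := by
      apply closure_minimal
      · exact fun w hw => ⟨ball_subset_closedBall (hVb hw), (hVs hw).2.le⟩
      · exact hTc.preimage_isClosed_of_isClosed isClosed_closedBall isClosed_Ici
    exact (this hz).2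
  have hVcb : closure V ⊆ ball 0 1 := by
    intro z hz
    have h1 := hVcc hz
    rw [mem_closedBall_zero_iff] at h1
    rw [mem_ball_zero_iff]
    refine lt_of_le_of_ne h1 fun h2 => ?_
    have h3 := hT0 z (by rw [mem_sphere_zero_iff_norm]; exact h2)
    have h4 := hVT z hz
    linarith
  -- the kernels
  set B : Set ℂ := {ζ | ζ ∉ closure V ∧ ¬ Ex V ζ} with hB
  have hBo : IsOpen B := by
    rw [isOpen_iff_mem_nhds]
    rintro ζ ⟨h1, h2⟩
    filter_upwards [ex_nhds h1] with ζ' h3
    exact ⟨h3.1, fun h4 => h2 (h3.2.mpr h4)⟩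
  have hSo : IsOpen (closure V ∪ B)ᶜ := by
    rw [isOpen_iff_mem_nhds]
    intro ζ hζ
    have h1 : ζ ∉ closure V := fun h => hζ (Or.inl h)
    have h2 : Ex V ζ := by
      by_contra h2
      exact hζ (Or.inr ⟨h1, h2⟩)
    filter_upwards [ex_nhds h1] with ζ' h3 h4
    rcases h4 with h4 | h4
    · exact h3.1 h4
    · exact h4.2 (h3.2.mp h2)
  have hBball : B ⊆ ball 0 1 := by
    intro ζ hζ
    rw [mem_ball_zero_iff]
    by_contra h
    exact hζ.2 (ex_far hVb (not_lt.mp h))
  have hKcl : IsClosed (closure V ∪ B) := isOpen_compl_iff.mp hSo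
  have hKb : closure V ∪ B ⊆ ball 0 1 := union_subset hVcb hBball
  have hKcomp : IsCompact (closure V ∪ B) :=
    (isCompact_closedBall (0 : ℂ) 1).of_isClosed_subset hKcl (hKb.trans ball_subset_closedBall)
  have hBcl : closure B ⊆ closure V ∪ B := closure_minimal subset_union_right hKcl
  have hfr : ∀ z ∈ frontier B, z ∈ closure V := by
    intro z hz
    rcases hBcl (frontier_subset_closure hz) with h | h
    · exact h
    · exact absurd h (fun h => hz.2 (hBo.interior_eq.symm ▸ h))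
  have hBT : ∀ z ∈ closure B, s ≤ T z :=
    min_principle hTc hsm hBo (hBcl.trans hKb) fun z hz => hVT z (hfr z hz)
  have hsub : ∀ {A : Set ℂ}, A ⊆ ball 0 1 → (∀ z ∈ A, s ≤ T z) → A ⊆ sup1 T m :=
    fun hA hAT z hz => ⟨hA hz, lt_of_lt_of_le hms (hAT z hz)⟩
  have hVpre : IsPreconnected (closure V) := isPreconnected_connectedComponentIn.closure
  have hclVD : closure V ⊆ connectedComponentIn (sup1 T m) x :=
    hVpre.subset_connectedComponentIn (subset_closure hxV) (hsub hVcb hVT)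
  refine ⟨closure V ∪ B, hKcomp, subset_union_left, union_subset hclVD ?_, ?_⟩
  · intro b hb
    obtain ⟨p, hp, hpC⟩ := exists_frontier hBo (hBcl.trans hKb) hb
    have hCpre : IsPreconnected (closure (connectedComponentIn B b)) :=
      isPreconnected_connectedComponentIn.closure
    have hCcl : closure (connectedComponentIn B b) ⊆ closure B :=
      closure_mono (connectedComponentIn_subset B b)
    have hun : IsPreconnected (closure V ∪ closure (connectedComponentIn B b)) :=
      hVpre.union p (hfr p hp) hpC hCpre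
    have hsub2 : closure V ∪ closure (connectedComponentIn B b) ⊆ sup1 T m :=
      union_subset (hsub hVcb hVT)
        (hsub (hCcl.trans (hBcl.trans hKb)) fun z hz => hBT z (hCcl hz))
    exact hun.subset_connectedComponentIn (Or.inl (subset_closure hxV)) hsub2
      (Or.inr (subset_closure (mem_connectedComponentIn hb)))
  · intro ζ hζ
    by_contra hcon
    have h1 : ζ ∉ closure V := fun h => hζ (Or.inl h)
    exact hζ (Or.inr ⟨h1, hcon⟩)

/-! ### gluing the primitives -/

/-- primitives on an increasing sequence of connected open sets through a common point glue. -/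
theorem glue {V : ℕ → Set ℂ} {x : ℂ} (hVo : ∀ n, IsOpen (V n)) (hVc : ∀ n, IsPreconnected (V n))
    (hmono : Monotone V) (hx : x ∈ V 0) {f : ℂ → ℂ}
    (hp : ∀ n, ∃ g : ℂ → ℂ, ∀ z ∈ V n, HasDerivAt g (f z) z) :
    ∃ g : ℂ → ℂ, ∀ z ∈ ⋃ n, V n, HasDerivAt g (f z) z := by
  classical
  choose g0 hg0 using hp
  -- normalized primitives
  set g : ℕ → ℂ → ℂ := fun n z => g0 n z - g0 n x with hg
  have hgd : ∀ n, ∀ z ∈ V n, HasDerivAt (g n) (f z) z := fun n z hz =>
    (hg0 n z hz).sub_const _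
  have hgx : ∀ n, g n x = 0 := fun n => sub_self _
  have hxn : ∀ n, x ∈ V n := fun n => hmono (Nat.zero_le n) hx
  have hagree : ∀ i j, i ≤ j → EqOn (g i) (g j) (V i) := by
    intro i j hij
    apply (hVo i).eqOn_of_deriv_eq (hVc i)
      (fun z hz => (hgd i z hz).differentiableAt.differentiableWithinAt)
      (fun z hz => (hgd j z (hmono hij hz)).differentiableAt.differentiableWithinAt)
      (fun z hz => by
        change deriv (g i) z = deriv (g j) z
        rw [(hgd i z hz).deriv, (hgd j z (hmono hij hz)).deriv]) (hxn i)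
    rw [hgx, hgx]
  set G : ℂ → ℂ := fun z => if h : ∃ n, z ∈ V n then g (Nat.find h) z else 0 with hG
  have hGeq : ∀ n, ∀ z ∈ V n, G z = g n z := by
    intro n z hz
    have h : ∃ n, z ∈ V n := ⟨n, hz⟩
    have e : G z = g (Nat.find h) z := by
      simp only [hG]
      rw [dif_pos h]
    rw [e]
    exact hagree _ _ (Nat.find_min' h hz) (Nat.find_spec h)
  refine ⟨G, fun z hz => ?_⟩
  obtain ⟨n, hn⟩ := mem_iUnion.mp hz
  refine (hgd n z hn).congr_of_eventuallyEq ?_
  filter_upwards [(hVo n).mem_nhds hn] with w hw using hGeq n w hw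

/-- the statement of module S2 of MP_747ad5_an. -/
def ExactOfKernels : Prop := ∀ {D V Kh : Set ℂ}, IsOpen D → IsOpen V → IsConnected V →
    IsCompact Kh → closure V ⊆ Kh → Kh ⊆ D →
    (∀ ζ ∈ D \ Kh, ∃ g : ℂ → ℂ, ∀ z ∈ V, HasDerivAt g (1 / (z - ζ)) z) →
    ∀ {f : ℂ → ℂ}, DifferentiableOn ℂ f D →
    ∃ g : ℂ → ℂ, ∀ z ∈ V, HasDerivAt g (f z) z

theorem superlevel_primitives_of (hE : ExactOfKernels) {T : ℂ → ℝ} {m : ℝ}
    (hTc : ContinuousOn T (closedBall 0 1))
    (hT0 : ∀ z ∈ sphere (0 : ℂ) 1, T z < m)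
    (hsm : ∀ c ∈ ball (0 : ℂ) 1, ∀ᶠ r in 𝓝[>] (0 : ℝ), Real.circleAverage T c r ≤ T c)
    {x : ℂ} (hx : x ∈ sup1 T m) {f : ℂ → ℂ}
    (hf : DifferentiableOn ℂ f (connectedComponentIn (sup1 T m) x)) :
    ∃ g : ℂ → ℂ, ∀ z ∈ connectedComponentIn (sup1 T m) x, HasDerivAt g (f z) z := by
  set D := connectedComponentIn (sup1 T m) x with hD
  have hDo : IsOpen D := (sup1_open hTc m).connectedComponentIn
  have hxD : x ∈ D := mem_connectedComponentIn hx
  have hDs : D ⊆ sup1 T m := connectedComponentIn_subset _ _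
  have hmx : m < T x := hx.2
  -- levels
  set σ : ℕ → ℝ := fun n => m + (T x - m) / (n + 2) with hσ
  have hσm : ∀ n, m < σ n := by
    intro n
    have : 0 < (T x - m) / ((n : ℝ) + 2) := by
      have : 0 < T x - m := by linarith
      positivity
    simp only [hσ]; linarith
  have hσx : ∀ n, σ n < T x := by
    intro n
    have h1 : 0 < T x - m := by linarith
    have h2 : (T x - m) / ((n : ℝ) + 2) < T x - m := by
      rw [div_lt_iff₀ (by positivity)]
      have : (0 : ℝ) ≤ n := n.cast_nonneg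
      nlinarith
    simp only [hσ]; linarith
  have hσa : Antitone σ := by
    intro i j hij
    have h1 : 0 < T x - m := by linarith
    have h2 : (i : ℝ) ≤ j := by exact_mod_cast hij
    simp only [hσ]
    gcongr
  have hσlim : Tendsto σ atTop (𝓝 m) := by
    have h1 : Tendsto (fun n : ℕ => (T x - m) / ((n : ℝ) + 2)) atTop (𝓝 0) := by
      apply Tendsto.div_atTop tendsto_const_nhds
      exact tendsto_atTop_add_const_right _ _ tendsto_natCast_atTop_atTop
    have := h1.const_add m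
    rw [add_zero] at this
    exact this
  set V : ℕ → Set ℂ := fun n => connectedComponentIn (sup1 T (σ n)) x with hV
  have hxs : ∀ n, x ∈ sup1 T (σ n) := fun n => ⟨hx.1, hσx n⟩
  have hsubs : ∀ {a b : ℝ}, a ≤ b → sup1 T b ⊆ sup1 T a :=
    fun hab z hz => ⟨hz.1, lt_of_le_of_lt hab hz.2⟩
  have hVo : ∀ n, IsOpen (V n) := fun n => (sup1_open hTc (σ n)).connectedComponentIn
  have hVc : ∀ n, IsPreconnected (V n) := fun n => isPreconnected_connectedComponentIn
  have hmono : Monotone V := fun i j hij => connectedComponentIn_mono x (hsubs (hσa hij))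
  have hp : ∀ n, ∃ g : ℂ → ℂ, ∀ z ∈ V n, HasDerivAt g (f z) z := by
    intro n
    obtain ⟨Kh, hK1, hK2, hK3, hK4⟩ := superlevel_kernels hTc hT0 (hσm n) hsm (hxs n)
    exact hE hDo (hVo n) ⟨⟨x, mem_connectedComponentIn (hxs n)⟩, hVc n⟩ hK1 hK2 hK3
      (fun ζ hζ => hK4 ζ hζ.2) hf
  obtain ⟨g, hg⟩ := glue hVo hVc hmono (mem_connectedComponentIn (hxs 0)) hp
  refine ⟨g, fun y hy => hg y ?_⟩
  -- `y` is in some `V n`
  have hpath : IsPathConnected D :=
    hDo.isConnected_iff_isPathConnected.mp ⟨⟨x, hxD⟩, isPreconnected_connectedComponentIn⟩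
  obtain ⟨γ, hγ⟩ := hpath.joinedIn x hxD y hy
  have hrc : IsCompact (range γ) := isCompact_range γ.continuous
  have hrD : range γ ⊆ D := by
    rintro _ ⟨t, rfl⟩
    exact hγ t
  have hrT : ContinuousOn T (range γ) :=
    hTc.mono fun z hz => ball_subset_closedBall (hDs (hrD hz)).1
  obtain ⟨p, hp1, hp2⟩ := hrc.exists_isMinOn ⟨γ 0, 0, rfl⟩ hrT
  have hpm : m < T p := (hDs (hrD hp1)).2
  obtain ⟨n, hn⟩ := (hσlim.eventually (gt_mem_nhds hpm)).exists
  have hn' : σ n < T p := hn
  have hconn : IsPreconnected (range γ) := isPreconnected_range γ.continuous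
  have hsub : range γ ⊆ sup1 T (σ n) := fun z hz =>
    ⟨(hDs (hrD hz)).1, lt_of_lt_of_le hn' (hp2 hz)⟩
  have hx' : x ∈ range γ := ⟨0, γ.source⟩
  have hy' : y ∈ range γ := ⟨1, γ.target⟩
  exact mem_iUnion.mpr ⟨n, hconn.subset_connectedComponentIn hx' hsub hy'⟩

end Pool.Agent.helper44.QD
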